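import Pool.Agent.N928.FG.Stm

/-!
# The convolution norm exists
-/

set_option autoImplicit false

namespace Pool.Agent.N93.FG

open Pool.Agent.N928.FG Pool.Agent.Helper125 Pool.Agent.Helper125.Gam

/-- the sum of squares of the translates over a finite set -/
lemma sum_sq_shift (g : Ga →₀ ℝ) (y : Ga) (T : Finset Ga) :
    ∑ x ∈ T, g (y⁻¹ * x) ^ 2 ≤ g.sum (fun _ a => a ^ 2) := by
  classical
  rw [Finsupp.sum]
  have h1 : ∑ x ∈ T, g (y⁻¹ * x) ^ 2 = ∑ z ∈ T.image (fun x => y⁻¹ * x), g z ^ 2 := by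
    rw [Finset.sum_image]
    intro a _ b _ h
    exact mul_left_cancel h
  rw [h1]
  have h2 : ∑ z ∈ T.image (fun x => y⁻¹ * x), g z ^ 2
      = ∑ z ∈ (T.image (fun x => y⁻¹ * x)) ∩ g.support, g z ^ 2 := by
    symm
    apply Finset.sum_subset Finset.inter_subset_left
    intro z hz hz2
    have : g z = 0 := by
      by_contra h
      exact hz2 (Finset.mem_inter.2 ⟨hz, Finsupp.mem_support_iff.2 h⟩)
    rw [this]; norm_num
  rw [h2]
  exact Finset.sum_le_sum_of_subset_of_nonneg Finset.inter_subset_right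
    (fun _ _ _ => sq_nonneg _)

/-- Jensen -/
lemma jensen_sq (ν : Ga →₀ ℝ) (h0 : ∀ x, 0 ≤ ν x) (h1 : ν.sum (fun _ t => t) = 1) (f : Ga → ℝ) :
    (ν.sum (fun y a => a * f y)) ^ 2 ≤ ν.sum (fun y a => a * f y ^ 2) := by
  rw [Finsupp.sum] at h1 ⊢
  rw [Finsupp.sum]
  have h3 : ∀ m : ℝ, ∑ y ∈ ν.support, ν y * (f y - m) ^ 2
      = ∑ y ∈ ν.support, ν y * f y ^ 2 - (2 * m) * ∑ y ∈ ν.support, ν y * f y
        + m ^ 2 * ∑ y ∈ ν.support, ν y := by
    intro m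
    rw [Finset.mul_sum, Finset.mul_sum, ← Finset.sum_sub_distrib, ← Finset.sum_add_distrib]
    apply Finset.sum_congr rfl
    intro y _
    ring
  have h2 : ∀ m : ℝ, 0 ≤ ∑ y ∈ ν.support, ν y * (f y - m) ^ 2 := fun m =>
    Finset.sum_nonneg (fun y _ => mul_nonneg (h0 y) (sq_nonneg _))
  have h4 := h2 (∑ y ∈ ν.support, ν y * f y)
  rw [h3, h1] at h4
  nlinarith [h4]

lemma one_mem (ν : Ga →₀ ℝ) (h0 : ∀ x, 0 ≤ ν x) (h1 : ν.sum (fun _ t => t) = 1)
    (g : Ga →₀ ℝ) (T : Finset Ga) :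
    ∑ x ∈ T, (ν.sum (fun y a => a * g (y⁻¹ * x))) ^ 2 ≤ g.sum (fun _ a => a ^ 2) := by
  calc ∑ x ∈ T, (ν.sum (fun y a => a * g (y⁻¹ * x))) ^ 2
      ≤ ∑ x ∈ T, ν.sum (fun y a => a * g (y⁻¹ * x) ^ 2) :=
        Finset.sum_le_sum (fun x _ => jensen_sq ν h0 h1 (fun y => g (y⁻¹ * x)))
    _ = ∑ y ∈ ν.support, ν y * ∑ x ∈ T, g (y⁻¹ * x) ^ 2 := by
        simp only [Finsupp.sum]
        rw [Finset.sum_comm]
        apply Finset.sum_congr rfl
        intro y _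
        rw [Finset.mul_sum]
    _ ≤ ∑ y ∈ ν.support, ν y * g.sum (fun _ a => a ^ 2) :=
        Finset.sum_le_sum (fun y _ => mul_le_mul_of_nonneg_left (sum_sq_shift g y T) (h0 y))
    _ = g.sum (fun _ a => a ^ 2) := by
        rw [← Finset.sum_mul]
        rw [Finsupp.sum] at h1
        rw [h1, one_mul]

theorem t_RHO : S_RHO := by
  intro ν h0 h1
  set K : Set ℝ := {M : ℝ | 0 ≤ M ∧ ∀ (g : Ga →₀ ℝ) (T : Finset Ga),
    ∑ x ∈ T, (ν.sum (fun y a => a * g (y⁻¹ * x))) ^ 2 ≤ M ^ 2 * g.sum (fun _ a => a ^ 2)} with hK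
  have hne : K.Nonempty := by
    refine ⟨1, zero_le_one, ?_⟩
    intro g T
    rw [one_pow, one_mul]
    exact one_mem ν h0 h1 g T
  have hbd : BddBelow K := ⟨0, fun M hM => hM.1⟩
  have hρ0 : 0 ≤ sInf K := le_csInf hne (fun M hM => hM.1)
  have hs : ∀ g : Ga →₀ ℝ, 0 ≤ g.sum (fun _ a => a ^ 2) := fun g =>
    Finset.sum_nonneg (fun _ _ => sq_nonneg _)
  refine ⟨sInf K, hρ0, ?_, ?_⟩
  · intro g T
    -- a sequence in `K` tending to the infimum
    obtain ⟨u, -, hu, huK⟩ := exists_seq_tendsto_sInf hne hbd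
    have hlim : Filter.Tendsto (fun n => u n ^ 2 * g.sum (fun _ a => a ^ 2)) Filter.atTop
        (nhds ((sInf K) ^ 2 * g.sum (fun _ a => a ^ 2))) :=
      (hu.pow 2).mul_const _
    exact ge_of_tendsto' hlim (fun n => (huK n).2 g T)
  · intro r hr0 hr
    by_contra hcon
    push Not at hcon
    have : r ∈ K := ⟨hr0, fun g T => hcon g T⟩
    exact absurd (csInf_le hbd this) (not_le.2 hr)

end Pool.Agent.N93.FG
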